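import Pool.Agent.Helper57.MT.Goals

/-!
# Project MC2 (MP_69be96_nt): packet MC2-RCH2

The choice of the class, with prescribed survivors and an absolute constant.
-/

set_option autoImplicit false

open Finset Filter Topology

open scoped Classical

namespace Pool.Agent.Helper48.MT

open Pool.Agent.Helper23.MC (ZZ StmtRNZ StmtAVG)
open Pool.Agent.Helper57.MT

/-- the primes `≤ w` except `p` -/
noncomputable def LL (w p : ℕ) : Finset ℕ := ((Icc 1 w).filter Nat.Prime).erase p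

theorem mem_LL {w p l : ℕ} : l ∈ LL w p ↔ l ≠ p ∧ l.Prime ∧ l ≤ w := by
  unfold LL
  rw [mem_erase, mem_filter, mem_Icc]
  constructor
  · rintro ⟨h1, ⟨-, h2⟩, h3⟩
    exact ⟨h1, h3, h2⟩
  · rintro ⟨h1, h2, h3⟩
    exact ⟨h1, ⟨h2.one_lt.le, h3⟩, h2⟩

theorem prod_LL {w p : ℕ} (hp : p.Prime) (hpw : p ≤ w) : ∏ l ∈ LL w p, l = primorial w / p := by
  have h1 : (range (w + 1)).filter Nat.Prime = (Icc 1 w).filter Nat.Prime := by
    ext l
    rw [mem_filter, mem_filter, mem_range, mem_Icc]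
    constructor
    · rintro ⟨h1, h2⟩
      exact ⟨⟨h2.one_lt.le, by omega⟩, h2⟩
    · rintro ⟨h1, h2⟩
      exact ⟨by omega, h2⟩
  have h2 : p ∈ (Icc 1 w).filter Nat.Prime := mem_filter.2 ⟨mem_Icc.2 ⟨hp.one_lt.le, hpw⟩, hp⟩
  have h3 : primorial w = p * ∏ l ∈ LL w p, l := by
    unfold primorial LL
    rw [h1]
    exact (Finset.mul_prod_erase _ _ h2).symm
  rw [h3, Nat.mul_div_cancel_left _ hp.pos]

/-- The number of the prime factors in `(t, w]`. -/
theorem card_pf {t w h Y : ℕ} (ht : 2 ≤ t) (hh : 1 ≤ h) (hY : h ≤ Y) :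
    (((Ioc t w).filter (fun l => l.Prime ∧ l ∣ h)).card : ℝ) * Real.log t ≤ Real.log Y := by
  obtain ⟨S, hS⟩ : ∃ S, S = (Ioc t w).filter (fun l => l.Prime ∧ l ∣ h) := ⟨_, rfl⟩
  rw [← hS]
  have h1 : ∏ l ∈ S, l ∣ h := by
    refine Finset.prod_primes_dvd h ?_ ?_
    · intro l hl
      rw [hS, mem_filter] at hl
      exact hl.2.1.prime
    · intro l hl
      rw [hS, mem_filter] at hl
      exact hl.2.2
  have h2 : t ^ S.card ≤ ∏ l ∈ S, l := by
    refine Finset.pow_card_le_prod _ _ _ ?_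
    intro l hl
    rw [hS, mem_filter, mem_Ioc] at hl
    exact hl.1.1.le
  have h3 : t ^ S.card ≤ Y := (h2.trans (Nat.le_of_dvd hh h1)).trans hY
  have h4 : ((t : ℝ)) ^ S.card ≤ Y := by exact_mod_cast h3
  have ht0 : (0 : ℝ) < t := by
    have : 0 < t := by omega
    exact_mod_cast this
  have h5 := Real.log_le_log (pow_pos ht0 _) h4
  rwa [Real.log_pow] at h5

/-- the exceptional primes -/
noncomputable def BB (t w p : ℕ) (H : Finset ℕ) : Finset ℕ :=
  (Ioc t w).filter (fun l => l.Prime ∧ (l = p ∨ ∃ h ∈ H, l ∣ h))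

theorem card_BB {t w p Y : ℕ} {H : Finset ℕ} (ht : 2 ≤ t) (hH : H ⊆ Icc 1 Y) (a : ℝ)
    (ha : Real.log Y ≤ a * Real.log t) :
    ((BB t w p H).card : ℝ) ≤ 1 + H.card * a := by
  have hlt : 0 < Real.log t := Real.log_pos (by
    have : 1 < t := by omega
    exact_mod_cast this)
  have h1 : BB t w p H ⊆ {p} ∪ H.biUnion (fun h => (Ioc t w).filter (fun l => l.Prime ∧ l ∣ h)) := by
    intro l hl
    unfold BB at hl
    rw [mem_filter] at hl
    rcases hl.2.2 with h | ⟨h, hh, hd⟩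
    · exact mem_union_left _ (mem_singleton.2 h)
    · exact mem_union_right _ (mem_biUnion.2 ⟨h, hh, mem_filter.2 ⟨hl.1, hl.2.1, hd⟩⟩)
  have h2 : (BB t w p H).card ≤ 1 +
      ∑ h ∈ H, ((Ioc t w).filter (fun l => l.Prime ∧ l ∣ h)).card := by
    refine (card_le_card h1).trans ((card_union_le _ _).trans ?_)
    rw [card_singleton]
    exact Nat.add_le_add_left card_biUnion_le _
  have h3 : ((BB t w p H).card : ℝ) ≤ 1 +
      ∑ h ∈ H, (((Ioc t w).filter (fun l => l.Prime ∧ l ∣ h)).card : ℝ) := by exact_mod_cast h2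
  refine h3.trans ?_
  have h4 : ∀ h ∈ H, (((Ioc t w).filter (fun l => l.Prime ∧ l ∣ h)).card : ℝ) ≤ a := by
    intro h hh
    have h5 := mem_Icc.1 (hH hh)
    have h6 := card_pf (w := w) ht h5.1 h5.2
    have h7 := h6.trans ha
    exact le_of_mul_le_mul_right h7 hlt
  have h5 := Finset.sum_le_sum h4
  rw [Finset.sum_const, nsmul_eq_mul] at h5
  linarith

/-- the allowed classes -/
noncomputable def AA (t : ℕ) (Bd H : Finset ℕ) (l : ℕ) : Finset ℕ :=
  if l ≤ t ∨ l ∈ Bd then Al H l else {0}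

/-- The survivors for a class with the given residues. -/
theorem surv {t w p b : ℕ} {H : Finset ℕ}
    (hb : ∀ l ∈ LL w p, b % l ∈ AA t (BB t w p H) H l) :
    ∀ h ∈ H, Nat.Coprime (b + h) (∏ l ∈ LL w p, l) := by
  intro h hh
  refine Nat.Coprime.prod_right fun l hl => ?_
  have hl' := mem_LL.1 hl
  rw [Nat.coprime_comm, hl'.2.1.coprime_iff_not_dvd]
  intro hd
  have h1 := hb l hl
  unfold AA at h1
  by_cases hc : l ≤ t ∨ l ∈ BB t w p H
  · rw [if_pos hc] at h1
    unfold Al at h1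
    rw [mem_filter] at h1
    apply h1.2 h hh
    rw [Nat.dvd_iff_mod_eq_zero] at hd ⊢
    rw [Nat.mod_add_mod]
    exact hd
  · rw [if_neg hc, mem_singleton] at h1
    have h2 : l ∣ b := Nat.dvd_of_mod_eq_zero h1
    have h3 : l ∣ h := (Nat.dvd_add_right h2).1 hd
    push Not at hc
    apply hc.2
    unfold BB
    rw [mem_filter, mem_Ioc]
    exact ⟨⟨hc.1, hl'.2.2⟩, hl'.2.1, Or.inr ⟨h, hh, h3⟩⟩

/-- The average. -/
theorem aver (hSV : StmtSV1) {t w p Y : ℕ} (htw : t ≤ w) {H : Finset ℕ}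
    (hHne : H.Nonempty) (hadm : ∀ l : ℕ, l.Prime → ∃ a : ℕ, ∀ h ∈ H, ¬ h ≡ a [MOD l]) :
    ∑ h ∈ (Icc 1 Y).filter (fun h => h ∉ H), ∏ l ∈ LL w p,
      (1 - (if (l - h % l) % l ∈ AA t (BB t w p H) H l then
        1 / ((AA t (BB t w p H) H l).card : ℝ) else 0))
    ≤ ∑ h ∈ (ZZ Y t w (BB t w p H)).filter (fun h => h ∉ H),
      ∏ l ∈ ((Icc 1 t).filter Nat.Prime).erase p, sv H l h := by
  have hfac : ∀ h, ∀ l ∈ LL w p, 0 ≤ (1 - (if (l - h % l) % l ∈ AA t (BB t w p H) H l then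
        1 / ((AA t (BB t w p H) H l).card : ℝ) else 0)) ∧
      (1 - (if (l - h % l) % l ∈ AA t (BB t w p H) H l then
        1 / ((AA t (BB t w p H) H l).card : ℝ) else 0)) ≤ 1 := by
    intro h l hl
    have hl' := mem_LL.1 hl
    obtain ⟨s1, s2, s3, s4, s5, s6⟩ := hSV H l hl'.2.1 hHne (hadm l hl'.2.1)
    by_cases hc : l ≤ t ∨ l ∈ BB t w p H
    · have e : AA t (BB t w p H) H l = Al H l := by
        unfold AA
        rw [if_pos hc]
      rw [e, s6 h]
      exact s1 h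
    · have e : AA t (BB t w p H) H l = {0} := by
        unfold AA
        rw [if_neg hc]
      rw [e, card_singleton]
      split_ifs <;> norm_num
  have hsub : ((Icc 1 t).filter Nat.Prime).erase p ⊆ LL w p := by
    intro l hl
    rw [mem_erase, mem_filter, mem_Icc] at hl
    exact mem_LL.2 ⟨hl.1, hl.2.2, hl.2.1.2.trans htw⟩
  have hZsub : (ZZ Y t w (BB t w p H)).filter (fun h => h ∉ H) ⊆
      (Icc 1 Y).filter (fun h => h ∉ H) := by
    intro h hh
    rw [mem_filter] at hh ⊢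
    unfold ZZ at hh
    rw [mem_filter] at hh
    exact ⟨hh.1.1, hh.2⟩
  rw [← Finset.sum_subset hZsub]
  · refine Finset.sum_le_sum fun h hh => ?_
    rw [← Finset.prod_sdiff hsub]
    have h1 : ∏ l ∈ LL w p \ ((Icc 1 t).filter Nat.Prime).erase p,
        (1 - (if (l - h % l) % l ∈ AA t (BB t w p H) H l then
          1 / ((AA t (BB t w p H) H l).card : ℝ) else 0)) ≤ 1 := by
      refine Finset.prod_le_one ?_ ?_
      · intro l hl
        exact (hfac h l (mem_sdiff.1 hl).1).1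
      · intro l hl
        exact (hfac h l (mem_sdiff.1 hl).1).2
    have h2 : ∏ l ∈ ((Icc 1 t).filter Nat.Prime).erase p,
        (1 - (if (l - h % l) % l ∈ AA t (BB t w p H) H l then
          1 / ((AA t (BB t w p H) H l).card : ℝ) else 0)) =
        ∏ l ∈ ((Icc 1 t).filter Nat.Prime).erase p, sv H l h := by
      refine Finset.prod_congr rfl fun l hl => ?_
      have hl2 := hl
      rw [mem_erase, mem_filter, mem_Icc] at hl2
      obtain ⟨s1, s2, s3, s4, s5, s6⟩ := hSV H l hl2.2.2 hHne (hadm l hl2.2.2)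
      have e : AA t (BB t w p H) H l = Al H l := by
        unfold AA
        rw [if_pos (Or.inl hl2.2.1.2)]
      rw [e, s6 h]
    rw [h2]
    have h3 : 0 ≤ ∏ l ∈ ((Icc 1 t).filter Nat.Prime).erase p, sv H l h := by
      rw [← h2]
      exact Finset.prod_nonneg fun l hl => (hfac h l (hsub hl)).1
    exact mul_le_of_le_one_left h3 h1
  · intro h hh hn
    rw [mem_filter] at hh
    have h1 : h ∉ ZZ Y t w (BB t w p H) := fun h' => hn (mem_filter.2 ⟨h', hh.2⟩)
    unfold ZZ at h1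
    rw [mem_filter] at h1
    push Not at h1
    obtain ⟨l, hl1, hl2, hl3, hl4, hl5⟩ := h1 hh.1
    have hlp : l ≠ p := by
      rintro rfl
      apply hl4
      unfold BB
      rw [mem_filter, mem_Ioc]
      exact ⟨⟨hl2, hl3⟩, hl1, Or.inl rfl⟩
    refine Finset.prod_eq_zero (mem_LL.2 ⟨hlp, hl1, hl3⟩) ?_
    have e : AA t (BB t w p H) H l = {0} := by
      unfold AA
      rw [if_neg]
      push Not
      exact ⟨hl2, hl4⟩
    have e2 : (l - h % l) % l = 0 := by
      rw [Nat.mod_eq_zero_of_dvd hl5, Nat.sub_zero, Nat.mod_self]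
    rw [e, e2, if_pos (mem_singleton.2 rfl), card_singleton]
    norm_num

/-- Eventually. -/
theorem large (K : ℕ) : ∃ w0 : ℕ, ∀ w : ℕ, w0 ≤ w → 1 ≤ Real.log (Real.log w) ∧
    1 ≤ Real.log w ∧ 0 < Real.log (Real.log (Real.log w)) ∧
    4 * Real.log (Real.log w) ≤ Real.log w ∧ K * Real.log w ≤ w ∧ 2 ≤ w := by
  have t1 : Tendsto (fun w : ℕ => (w : ℝ)) atTop atTop := tendsto_natCast_atTop_atTop
  have t2 : Tendsto (fun w : ℕ => Real.log (w : ℝ)) atTop atTop := Real.tendsto_log_atTop.comp t1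
  have t3 : Tendsto (fun w : ℕ => Real.log (Real.log (w : ℝ))) atTop atTop :=
    Real.tendsto_log_atTop.comp t2
  have t4 : Tendsto (fun w : ℕ => Real.log (Real.log (Real.log (w : ℝ)))) atTop atTop :=
    Real.tendsto_log_atTop.comp t3
  have l1 : ∀ c : ℝ, 0 < c → ∀ᶠ x : ℝ in atTop, Real.log x ≤ c * x := by
    intro c hc
    have h := (Real.isLittleO_log_id_atTop.bound hc)
    filter_upwards [h, eventually_ge_atTop (1 : ℝ)] with x hx h1
    have h0 : 0 ≤ Real.log x := Real.log_nonneg h1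
    rw [Real.norm_of_nonneg h0, id, Real.norm_of_nonneg (by linarith)] at hx
    exact hx
  have e1 := t2.eventually (l1 (1 / 4) (by norm_num))
  have e2 := t1.eventually (l1 (1 / (K + 1)) (by positivity))
  have e3 := t3.eventually (eventually_ge_atTop (1 : ℝ))
  have e4 := t2.eventually (eventually_ge_atTop (1 : ℝ))
  have e5 := t4.eventually (eventually_gt_atTop (0 : ℝ))
  have e6 := eventually_ge_atTop (2 : ℕ)
  obtain ⟨w0, hw0⟩ := eventually_atTop.1 ((((e1.and e2).and e3).and e4).and (e5.and e6))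
  refine ⟨w0, fun w hw => ?_⟩
  obtain ⟨⟨⟨⟨h1, h2⟩, h3⟩, h4⟩, h5, h6⟩ := hw0 w hw
  refine ⟨h3, h4, h5, by linarith, ?_, h6⟩
  have hK : (0 : ℝ) ≤ K := Nat.cast_nonneg K
  have hw : (0 : ℝ) ≤ w := Nat.cast_nonneg w
  calc (K : ℝ) * Real.log w ≤ K * (1 / (K + 1) * w) := by gcongr
    _ = K / (K + 1) * w := by ring
    _ ≤ 1 * w := by
        gcongr
        rw [div_le_one (by positivity)]
        linarith
    _ = w := one_mul _

/-- The estimate with real numbers. -/
theorem final_bound (C1 C2 a b c T Y K w : ℝ) (hC1 : 1 ≤ C1) (hC2 : 1 ≤ C2) (ha : 1 ≤ a)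
    (hb : 1 ≤ b) (hc : 0 < c) (hcb : c ≤ b) (hY : w * a ≤ Y) (hK : K * a ≤ w)
    (hT : a * c / (C1 * b) ≤ T) (hY0 : 0 ≤ Y) :
    K + C2 * (Y * b / (a * T)) ≤ (C1 * C2 + 1) * (Y * b ^ 2 / (a ^ 2 * c)) := by
  have h0 : 0 < a * c / (C1 * b) := by positivity
  have hT0 : 0 < T := lt_of_lt_of_le h0 hT
  have h1 : K ≤ Y * b ^ 2 / (a ^ 2 * c) := by
    rw [le_div_iff₀ (by positivity)]
    have h2 : K * (a ^ 2 * c) = (K * a) * a * c := by ring
    rw [h2]
    have h3 : c ≤ b ^ 2 := by nlinarith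
    calc K * a * a * c ≤ w * a * c := by gcongr
      _ ≤ Y * c := by gcongr
      _ ≤ Y * b ^ 2 := by gcongr
  have h2 : Y * b / (a * T) ≤ C1 * (Y * b ^ 2 / (a ^ 2 * c)) := by
    calc Y * b / (a * T) ≤ Y * b / (a * (a * c / (C1 * b))) := by
          gcongr
      _ = C1 * (Y * b ^ 2 / (a ^ 2 * c)) := by
          field_simp
  calc K + C2 * (Y * b / (a * T))
      ≤ Y * b ^ 2 / (a ^ 2 * c) + C2 * (C1 * (Y * b ^ 2 / (a ^ 2 * c))) := by gcongr
    _ = (C1 * C2 + 1) * (Y * b ^ 2 / (a ^ 2 * c)) := by ring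

/-- **RCH2.** -/
theorem rch2 (hRNZ : StmtRNZ) (hAVG : StmtAVG) (hZS : StmtZS2) (hSV : StmtSV1) :
    Pool.Agent.Helper57.MT.StmtRCH2 := by
  obtain ⟨C1, hC1, w1, hr⟩ := hRNZ
  obtain ⟨C2, hC2, hz⟩ := hZS
  refine ⟨C1 * C2 + 1, by nlinarith, ?_⟩
  intro K hK
  obtain ⟨w2, hz⟩ := hz K hK
  obtain ⟨w3, hl⟩ := large K
  refine ⟨max w1 (max w2 w3), ?_⟩
  intro w p Y hw hp hpw hY1 hY2 H hH hcard hadm
  have hw1 : w1 ≤ w := (le_max_left _ _).trans hw
  have hw2 : w2 ≤ w := ((le_max_left _ _).trans (le_max_right _ _)).trans hw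
  have hw3 : w3 ≤ w := ((le_max_right _ _).trans (le_max_right _ _)).trans hw
  obtain ⟨g1, g2, g3, g4, g5, g6⟩ := hl w hw3
  have hw0 : (0 : ℝ) < w := by
    have : 0 < w := by omega
    exact_mod_cast this
  have hwY : w ≤ Y := by
    have : (w : ℝ) ≤ Y := by nlinarith
    exact_mod_cast this
  have hY0 : (0 : ℝ) < Y := lt_of_lt_of_le hw0 (by exact_mod_cast hwY)
  obtain ⟨t, ht2, htw, ht4, hsm, hlt, -⟩ := hr w Y hw1 hwY hY2
  have ht0 : (0 : ℝ) < t := by
    have : 0 < t := by omega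
    exact_mod_cast this
  have hHne : H.Nonempty := card_pos.1 (by omega)
  -- the exceptional primes
  have hlogY : Real.log Y ≤ Real.log w * Real.log t := by
    have h1 : Real.log Y ≤ Real.log w + 4 * Real.log (Real.log w) := by
      have h2 := Real.log_le_log hY0 hY2
      rw [Real.log_mul hw0.ne' (by positivity), Real.log_pow] at h2
      push_cast at h2
      exact h2
    have h3 : 4 * Real.log (Real.log w) ≤ Real.log t := by
      have h4 := Real.log_le_log (by positivity) ht4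
      rw [Real.log_pow] at h4
      push_cast at h4
      exact h4
    nlinarith
  have hBd : ((BB t w p H).card : ℝ) ≤ (K + 1) * Real.log w := by
    have h1 := card_BB (w := w) (p := p) ht2 hH (Real.log w) hlogY
    rw [hcard] at h1
    linarith
  have hBdt : ∀ q ∈ BB t w p H, t < q := by
    intro q hq
    unfold BB at hq
    rw [mem_filter, mem_Ioc] at hq
    exact hq.1.1
  -- the class
  have hA : ∀ l ∈ LL w p, AA t (BB t w p H) H l ⊆ range l ∧ (AA t (BB t w p H) H l).Nonempty := by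
    intro l hl
    have hl' := mem_LL.1 hl
    obtain ⟨s1, s2, s3, s4, s5, s6⟩ := hSV H l hl'.2.1 hHne (hadm l hl'.2.1)
    unfold AA
    split_ifs
    · exact ⟨filter_subset _ _, s5⟩
    · refine ⟨?_, ⟨0, mem_singleton.2 rfl⟩⟩
      rw [singleton_subset_iff, mem_range]
      exact hl'.2.1.pos
  obtain ⟨b, hb1, hb2, hb3⟩ := hAVG (LL w p) ((Icc 1 Y).filter (fun h => h ∉ H))
    (AA t (BB t w p H) H) (fun l hl => (mem_LL.1 hl).2.1) hA
  have hprod := prod_LL hp hpw
  refine ⟨b, by rw [← hprod]; exact hb1, ?_, ?_⟩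
  · intro h hh
    rw [← hprod]
    exact surv hb2 h hh
  · rw [← hprod]
    have h1 : (((Icc 1 Y).filter (fun h => Nat.Coprime (b + h) (∏ l ∈ LL w p, l))).card : ℝ) ≤
        K + ((((Icc 1 Y).filter (fun h => h ∉ H)).filter
          (fun h => Nat.Coprime (b + h) (∏ l ∈ LL w p, l))).card : ℝ) := by
      have h2 : (Icc 1 Y).filter (fun h => Nat.Coprime (b + h) (∏ l ∈ LL w p, l)) ⊆
          H ∪ ((Icc 1 Y).filter (fun h => h ∉ H)).filter
            (fun h => Nat.Coprime (b + h) (∏ l ∈ LL w p, l)) := by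
        intro h hh
        rw [mem_filter] at hh
        by_cases hc : h ∈ H
        · exact mem_union_left _ hc
        · exact mem_union_right _ (mem_filter.2 ⟨mem_filter.2 ⟨hh.1, hc⟩, hh.2⟩)
      have h3 := (card_le_card h2).trans (card_union_le _ _)
      rw [hcard] at h3
      exact_mod_cast h3
    have h2 := hb3.trans (aver hSV htw hHne hadm)
    have h3 := hz w p Y t hw2 hp hwY hY2 ht2 htw ht4 hsm H hH hcard hadm (BB t w p H) hBdt hBd
    have h4 := h1.trans (add_le_add_right (h2.trans h3) _)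
    refine h4.trans ?_
    exact final_bound C1 C2 (Real.log w) (Real.log (Real.log w))
      (Real.log (Real.log (Real.log w))) (Real.log t) Y K w hC1 hC2 g2 g1 g3
      ((Real.log_le_sub_one_of_pos (by linarith)).trans (by linarith)) hY1 g5 hlt hY0.le

end Pool.Agent.Helper48.MT
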